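import Mathlib

set_option autoImplicit false

/-! Heisenberg groups of subspaces of powers of prime fields: double centralizers and the
semi-Zariski topology. -/

namespace Pool.Agent.KS6_21.SZ

open Set Topology Cardinal

universe u

/-- The semi-Zariski topology on a semigroup `S`; the products are computed in `S` with an external
identity adjoined. -/
@[reducible] def semiZariski (S : Type u) [Semigroup S] : TopologicalSpace S :=
  TopologicalSpace.generateFrom {U | ∃ a b c d : WithOne S,
    U = {x : S | a * x * b ≠ c} ∨ U = {x : S | a * x * b ≠ c * x * d}}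

/-- There are a relation `r`, antisymmetric on the set `Y`, and for every `y` in `Y` an
open set `U` containing `y` such that `r z y` holds for all `z` in `U ∩ Y`. For instance: discrete
subspaces (`r` is equality), and the subspaces which can be well-ordered (or only linearly ordered)
such that all initial segments are open (scattered and right-separated subspaces), or such that
all final segments are open (left-separated subspaces). -/
def Thin {X : Type u} (τ : TopologicalSpace X) (Y : Set X) : Prop :=
  ∃ r : X → X → Prop, (∀ x ∈ Y, ∀ y ∈ Y, r x y → r y x → x = y) ∧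
    ∀ y ∈ Y, ∃ U, IsOpen[τ] U ∧ y ∈ U ∧ ∀ z ∈ U ∩ Y, r z y

/-- Discrete subspaces are thin. -/
theorem thin_of_discrete {X : Type u} (τ : TopologicalSpace X) (Y : Set X)
    (h : @DiscreteTopology Y (TopologicalSpace.induced Subtype.val τ)) : Thin τ Y := by
  refine ⟨fun x y => x = y, fun x _ y _ h _ => h, fun y hy => ?_⟩
  have h1 : IsOpen[TopologicalSpace.induced Subtype.val τ] ({⟨y, hy⟩} : Set Y) :=
    @isOpen_discrete _ (TopologicalSpace.induced Subtype.val τ) h _
  obtain ⟨U, hU, he⟩ := isOpen_induced_iff.1 h1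
  refine ⟨U, hU, ?_, fun z hz => ?_⟩
  · have : (⟨y, hy⟩ : Y) ∈ Subtype.val ⁻¹' U := by rw [he]; rfl
    exact this
  · have : (⟨z, hz.2⟩ : Y) ∈ Subtype.val ⁻¹' U := hz.1
    rw [he] at this
    exact congrArg Subtype.val (mem_singleton_iff.1 this)

variable (p : ℕ) [Fact p.Prime] {I : Type u} (W : Submodule (ZMod p) (I → ZMod p))

/-- The pairs `(w, q)` with `w` in `W` and `q` a finitely supported function. -/
abbrev V : Type u := W × (I →₀ ZMod p)

/-- The bilinear form: the sum of the products `q' i * w i`. -/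
noncomputable def B : V p W →ₗ[ZMod p] V p W →ₗ[ZMod p] ZMod p :=
  (Finsupp.lsum (ZMod p) fun i =>
    (LinearMap.lsmul (ZMod p) ((I → ZMod p) →ₗ[ZMod p] ZMod p)).flip
      (LinearMap.proj i)).flip.compl₁₂
    (W.subtype ∘ₗ LinearMap.fst (ZMod p) _ _) (LinearMap.snd (ZMod p) _ _)

theorem B_def (v w : V p W) : B p W v w = w.2.sum fun i a => a * (v.1 : I → ZMod p) i := by
  simp [B, Finsupp.sum]

/-- The Heisenberg group. -/
@[ext] structure G : Type u where
  v : V p W
  t : ZMod p

namespace G

variable {p W}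

noncomputable instance : Mul (G p W) := ⟨fun x y => ⟨x.v + y.v, x.t + y.t + B p W x.v y.v⟩⟩
instance : One (G p W) := ⟨⟨0, 0⟩⟩
noncomputable instance : Inv (G p W) := ⟨fun x => ⟨-x.v, -x.t + B p W x.v x.v⟩⟩

@[simp] theorem mul_v (x y : G p W) : (x * y).v = x.v + y.v := rfl
@[simp] theorem mul_t (x y : G p W) : (x * y).t = x.t + y.t + B p W x.v y.v := rfl
@[simp] theorem one_v : (1 : G p W).v = 0 := rfl
@[simp] theorem one_t : (1 : G p W).t = 0 := rfl
@[simp] theorem inv_v (x : G p W) : x⁻¹.v = -x.v := rfl
@[simp] theorem inv_t (x : G p W) : x⁻¹.t = -x.t + B p W x.v x.v := rfl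

noncomputable instance : Group (G p W) := Group.ofLeftAxioms
  (fun x y z => G.ext (add_assoc _ _ _) (by simp; ring))
  (fun x => G.ext (zero_add _) (by simp))
  (fun x => G.ext (neg_add_cancel _) (by simp))

theorem comm_iff {x y : G p W} : x * y = y * x ↔ (B p W - (B p W).flip) x.v y.v = 0 := by
  simp [G.ext_iff, add_comm, sub_eq_zero]

/-- The commutators are central. -/
theorem commutator_central (x y z : G p W) : Commute (x * y * x⁻¹ * y⁻¹) z := by
  refine comm_iff.2 ?_
  have : (x * y * x⁻¹ * y⁻¹).v = 0 := by simp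
  rw [this]
  simp

theorem inj [DecidableEq I] (hW : ∀ i : I, (Pi.single i 1 : I → ZMod p) ∈ W) :
    Function.Injective (B p W - (B p W).flip) := by
  refine (injective_iff_map_eq_zero _).2 fun v h => Prod.ext (Subtype.ext (funext fun i => ?_))
    (Finsupp.ext fun i => ?_)
  · simpa [B_def] using LinearMap.congr_fun h (0, Finsupp.single i 1)
  · have := LinearMap.congr_fun h (⟨Pi.single i 1, hW i⟩, 0)
    simp only [LinearMap.sub_apply, LinearMap.flip_apply, B_def, Finsupp.sum_zero_index, zero_sub,
      LinearMap.zero_apply, neg_eq_zero] at this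
    rw [Finsupp.sum_eq_single i] at this
    · simpa using this
    · intro j _ h
      simp [h]
    · simp

/-- The double centralizer of a finite set `F` has at most `p ^ (|F| + 1)` elements. -/
theorem centralizer_le [DecidableEq I] (hW : ∀ i : I, (Pi.single i 1 : I → ZMod p) ∈ W)
    (F : Set (G p W)) (hF : F.Finite) :
    F.centralizer.centralizer.Finite ∧ F.centralizer.centralizer.ncard ≤ p ^ (F.ncard + 1) := by
  classical
  have hp : 0 < p := (Fact.out : p.Prime).pos
  have := hF.to_subtype
  have := Fintype.ofFinite F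
  let L : F → V p W →ₗ[ZMod p] ZMod p := fun y => (B p W - (B p W).flip) y.1.v
  have h0 : Module.Finite (ZMod p) (Submodule.span (ZMod p) (range L)) :=
    Module.Finite.span_of_finite _ (finite_range L)
  have h1 : Finite (Submodule.span (ZMod p) (range L)) := Module.finite_of_finite (ZMod p)
  have h2 : Nat.card (Submodule.span (ZMod p) (range L)) ≤ p ^ F.ncard := by
    rw [Module.natCard_eq_pow_finrank (K := ZMod p), Nat.card_zmod]
    refine Nat.pow_le_pow_right hp ((finrank_range_le_card L).trans_eq ?_)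
    rw [← Nat.card_eq_fintype_card]
    rfl
  let T : Set ((V p W →ₗ[ZMod p] ZMod p) × ZMod p) :=
    (Submodule.span (ZMod p) (range L) : Set (V p W →ₗ[ZMod p] ZMod p)) ×ˢ Set.univ
  have hT : T.Finite := (toFinite _).prod finite_univ
  let f : G p W → (V p W →ₗ[ZMod p] ZMod p) × ZMod p :=
    fun g => ((B p W - (B p W).flip) g.v, g.t)
  have hf : Function.Injective f :=
    fun g h e => G.ext (inj hW (congrArg Prod.fst e)) (congrArg Prod.snd e)
  have hmaps : ∀ g ∈ F.centralizer.centralizer, f g ∈ T := by
    intro g hg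
    refine ⟨mem_span_of_iInf_ker_le_ker fun v hv => ?_, trivial⟩
    exact comm_iff.1 (hg ⟨v, 0⟩ fun y hy => comm_iff.2
      ((Submodule.mem_iInf _).1 hv ⟨y, hy⟩)).symm
  refine ⟨Finite.of_finite_image (f := f) (hT.subset ?_) hf.injOn, ?_⟩
  · rintro _ ⟨g, hg, rfl⟩
    exact hmaps g hg
  · refine (Set.ncard_le_ncard_of_injOn f hmaps hf.injOn hT).trans ?_
    show (_ ×ˢ Set.univ : Set _).ncard ≤ _
    rw [Set.ncard_prod, Set.ncard_univ, Nat.card_zmod, pow_succ]
    exact Nat.mul_le_mul_right p h2

/-- The copy of `W` in the group. -/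
def emb (w : W) : G p W := ⟨(w, 0), 0⟩

theorem emb_inj : Function.Injective (emb : W → G p W) := fun _ _ h =>
  congrArg (fun g : G p W => g.v.1) h

/-- The semi-Zariski topology on the copy of `W` is weaker than the product topology. -/
theorem cont : @Continuous W (G p W) (TopologicalSpace.induced Subtype.val
    (@Pi.topologicalSpace I (fun _ => ZMod p) fun _ => ⊥)) (semiZariski (G p W)) emb := by
  let _ : TopologicalSpace (ZMod p) := ⊥
  have : DiscreteTopology (ZMod p) := ⟨rfl⟩
  let _ : TopologicalSpace (I →₀ ZMod p) := ⊥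
  have : DiscreteTopology (I →₀ ZMod p) := ⟨rfl⟩
  let φ : WithOne (G p W) →* G p W := WithOne.lift (MulHom.id _)
  have h1 : ∀ (a b : WithOne (G p W)) (x : G p W), a * x * b = (φ a * x * φ b : G p W) := by
    intro a b x
    induction a using WithOne.recOneCoe <;> induction b using WithOne.recOneCoe <;> simp [φ]
  have h2 : ∀ a b : G p W, Continuous fun w : W =>
      (((a * emb w * b).v.1 : I → ZMod p), (a * emb w * b).v.2, (a * emb w * b).t) := by
    intro a b
    have e1 : ∀ w : W, ((a * emb w * b).v.1 : I → ZMod p) =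
        (a.v.1 : I → ZMod p) + (w : I → ZMod p) + (b.v.1 : I → ZMod p) := fun w => by
      simp [emb]
    have e2 : ∀ w : W, (a * emb w * b).v.2 = a.v.2 + b.v.2 := fun w => by simp [emb]
    have e3 : ∀ w : W, (a * emb w * b).t = a.t + b.t +
        ∑ i ∈ b.v.2.support, b.v.2 i * ((a.v.1 : I → ZMod p) i + (w : I → ZMod p) i) := fun w => by
      simp [emb, B_def, Finsupp.sum, mul_add, Finset.sum_add_distrib]
    simp only [e1, e2, e3]
    have ha : ContinuousAdd (ZMod p) := ⟨continuous_of_discreteTopology⟩
    have hev : ∀ i, Continuous fun w : W => (w : I → ZMod p) i := fun i =>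
      (continuous_apply i).comp continuous_subtype_val
    refine Continuous.prodMk (continuous_pi fun i => ?_) (Continuous.prodMk continuous_const
      (continuous_const.add (continuous_finsetSum _ fun i _ => ?_)))
    · exact (continuous_of_discreteTopology
        (f := fun t : ZMod p => (a.v.1 : I → ZMod p) i + t + (b.v.1 : I → ZMod p) i)).comp (hev i)
    · exact (continuous_of_discreteTopology
        (f := fun t : ZMod p => b.v.2 i * ((a.v.1 : I → ZMod p) i + t))).comp (hev i)
  have h3 : ∀ x y : G p W, x = y ↔ ((x.v.1 : I → ZMod p), x.v.2, x.t) =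
      ((y.v.1 : I → ZMod p), y.v.2, y.t) := by
    intro x y
    constructor
    · rintro rfl
      rfl
    · intro h
      simp only [Prod.mk.injEq] at h
      exact G.ext (Prod.ext (Subtype.ext h.1) h.2.1) h.2.2
  refine continuous_generateFrom_iff.2 ?_
  rintro _ ⟨a, b, c, d, rfl | rfl⟩
  · induction c using WithOne.recOneCoe
    · simp only [h1, ne_eq, WithOne.coe_ne_one, not_false_eq_true]
      exact isOpen_univ
    · simp only [h1, ne_eq, WithOne.coe_inj, h3]
      exact isOpen_ne_fun (h2 _ _) continuous_const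
  · simp only [h1, ne_eq, WithOne.coe_inj, h3]
    exact isOpen_ne_fun (h2 _ _) (h2 _ _)

/-- Thin subsets contain at most `|J|` elements of the copies of the functions in `W` which vanish
outside of the image of `J`. -/
theorem thin_le {J : Type u} [Infinite J] (e : J → I) (he : Function.Injective e) (W0 : Set W)
    (h0 : ∀ w ∈ W0, ∀ i, i ∉ range e → (w : I → ZMod p) i = 0) (Y : Set (G p W))
    (hY : Thin (semiZariski (G p W)) Y) : #(W0 ∩ emb ⁻¹' Y : Set W) ≤ #J := by
  classical
  obtain ⟨r, hr, h⟩ := hY
  have h1 : ∀ y : (W0 ∩ emb ⁻¹' Y : Set W), ∃ s : Finset I, ∀ w : W,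
      (∀ i ∈ s, (w : I → ZMod p) i = (y.1 : I → ZMod p) i) → emb w ∈ Y → r (emb w) (emb y.1) := by
    rintro ⟨y, hy0, hy⟩
    obtain ⟨U, hU, hyU, hz⟩ := h (emb y) hy
    have h2 := (@continuous_def W (G p W) (TopologicalSpace.induced Subtype.val
      (@Pi.topologicalSpace I (fun _ => ZMod p) fun _ => ⊥)) (semiZariski (G p W)) emb).1 cont U hU
    obtain ⟨O, hO, he⟩ := isOpen_induced_iff.1 h2
    have hyO : (y : I → ZMod p) ∈ O := by
      have : y ∈ Subtype.val ⁻¹' O := by rw [he]; exact hyU
      exact this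
    obtain ⟨s, u, hu, hsub⟩ := (@isOpen_pi_iff I (fun _ => ZMod p) (fun _ => ⊥) O).1 hO _ hyO
    refine ⟨s, fun w hw hwY => hz _ ⟨?_, hwY⟩⟩
    have : w ∈ Subtype.val ⁻¹' O := hsub fun i hi => by
      rw [hw i hi]
      exact (hu i hi).2
    rw [he] at this
    exact this
  choose s hs using h1
  let s' : (W0 ∩ emb ⁻¹' Y : Set W) → Finset J := fun y => (s y).preimage e he.injOn
  let f : (W0 ∩ emb ⁻¹' Y : Set W) → Finset J × (J →₀ ZMod p) := fun y =>
    (s' y, Finsupp.onFinset (s' y) (fun j => if j ∈ s' y then (y.1 : I → ZMod p) (e j) else 0)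
      (fun j hj => by by_contra h; simp [h] at hj))
  have key : ∀ y z : (W0 ∩ emb ⁻¹' Y : Set W), f y = f z → r (emb z.1) (emb y.1) := by
    intro y z hyz
    refine hs y z.1 (fun i hi => ?_) z.2.2
    by_cases hie : i ∈ range e
    · obtain ⟨j, rfl⟩ := hie
      have e1 : s' y = s' z := congrArg Prod.fst hyz
      have hj : j ∈ s' y := Finset.mem_preimage.2 hi
      have := DFunLike.congr_fun (congrArg Prod.snd hyz) j
      have hj' := hj
      rw [e1] at hj'
      simp only [f, Finsupp.onFinset_apply, hj, hj', if_true] at this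
      exact this.symm
    · rw [h0 _ z.2.1 i hie, h0 _ y.2.1 i hie]
  have hf : Function.Injective f := fun y z hyz =>
    Subtype.ext (emb_inj (hr _ y.2.2 _ z.2.2 (key z y hyz.symm) (key y z hyz)))
  have h5 : #(W0 ∩ emb ⁻¹' Y : Set W) ≤ #(Finset J × (J →₀ ZMod p)) :=
    Cardinal.mk_le_of_injective hf
  refine h5.trans ?_
  have hJ : ℵ₀ ≤ #J := Cardinal.aleph0_le_mk J
  rw [Cardinal.mk_prod, Cardinal.lift_id, Cardinal.lift_id, Cardinal.mk_finset_of_infinite,
    Cardinal.mk_finsupp_lift_of_infinite, Cardinal.lift_uzero, max_eq_left,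
    Cardinal.mul_eq_self hJ]
  exact (Cardinal.lift_lt_aleph0.2 (Cardinal.mk_lt_aleph0)).le.trans hJ

end G

end Pool.Agent.KS6_21.SZ
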