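import Pool.Agent.KS6_21.SZ.Heis

set_option autoImplicit false

/-! Groups of all cardinalities `μ` with `κ < μ ≤ 2 ^ κ` which are not unions of fewer than `μ`
thin subspaces. -/

namespace Pool.Agent.KS6_21.SZ

open Set Topology Cardinal

universe u

variable (p : ℕ) [Fact p.Prime] {I : Type u}

theorem mk_span_le [Infinite I] (S : Set (I → ZMod p)) {μ : Cardinal.{u}} (hμ : ℵ₀ ≤ μ)
    (h : #S ≤ μ) : #(Submodule.span (ZMod p) S) ≤ μ := by
  have h1 : Function.Surjective (fun f : S →₀ ZMod p =>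
      (⟨Finsupp.linearCombination (ZMod p) (Subtype.val : S → (I → ZMod p)) f,
        (Finsupp.mem_span_iff_linearCombination (ZMod p) S _).2 ⟨f, rfl⟩⟩ :
        Submodule.span (ZMod p) S)) := by
    rintro ⟨x, hx⟩
    obtain ⟨f, hf⟩ := (Finsupp.mem_span_iff_linearCombination (ZMod p) S x).1 hx
    exact ⟨f, Subtype.ext hf⟩
  refine (Cardinal.mk_le_of_surjective h1).trans ?_
  rcases finite_or_infinite S with h2 | h2
  · have : Finite (S →₀ ZMod p) :=
      Finite.of_injective (fun f : S →₀ ZMod p => (f : S → ZMod p)) DFunLike.coe_injective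
    exact (Cardinal.mk_lt_aleph0.le).trans hμ
  · rw [Cardinal.mk_finsupp_lift_of_infinite]
    refine max_le (by simpa using h) ?_
    exact (Cardinal.lift_lt_aleph0.2 (Cardinal.mk_lt_aleph0)).le.trans hμ

theorem mk_G [Infinite I] (W : Submodule (ZMod p) (I → ZMod p)) (h : #I ≤ #W) : #(G p W) = #W := by
  have hI : ℵ₀ ≤ #I := Cardinal.aleph0_le_mk I
  have hW : ℵ₀ ≤ #W := hI.trans h
  refine le_antisymm ?_ (Cardinal.mk_le_of_injective (G.emb_inj (p := p) (W := W)))
  have h1 : Function.Injective (fun g : G p W => (g.v.1, g.v.2, g.t)) := fun x y e => by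
    simp only [Prod.mk.injEq] at e
    exact G.ext (Prod.ext e.1 e.2.1) e.2.2
  have h2 := Cardinal.mk_le_of_injective h1
  refine h2.trans ?_
  rw [Cardinal.mk_prod, Cardinal.mk_prod, Cardinal.mk_finsupp_lift_of_infinite]
  have hz : Cardinal.lift.{u} #(ZMod p) ≤ #I :=
    (Cardinal.lift_lt_aleph0.2 (Cardinal.mk_lt_aleph0)).le.trans hI
  simp only [Cardinal.lift_id, Cardinal.lift_uzero]
  rw [max_eq_left (by simpa using hz)]
  calc #W * (#I * Cardinal.lift.{u} #(ZMod p)) ≤ #W * (#W * #W) := by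
        gcongr
        exact hz.trans h
    _ = #W := by rw [Cardinal.mul_eq_self hW, Cardinal.mul_eq_self hW]

/-- The main construction. -/
theorem exists_group {κ ν μ : Cardinal.{u}} (hκ : ℵ₀ ≤ κ) (h1 : κ < ν) (h2 : ν ≤ 2 ^ κ)
    (h3 : ν ≤ μ) :
    ∃ (G : Type u) (_ : Group G), #G = μ ∧
      (∀ x y z : G, Commute (x * y * x⁻¹ * y⁻¹) z) ∧
      (∀ F : Set G, F.Finite → F.centralizer.centralizer.Finite ∧
        F.centralizer.centralizer.ncard ≤ p ^ (F.ncard + 1)) ∧
      ∀ (J : Type u) (D : J → Set G), #J < ν → (∀ j, Thin (semiZariski G) (D j)) →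
        (⋃ j, D j) ≠ Set.univ := by
  classical
  have hν : ℵ₀ ≤ ν := hκ.trans h1.le
  have hμ : ℵ₀ ≤ μ := hν.trans h3
  set A : Type u := κ.out with hA
  have hAκ : #A = κ := Cardinal.mk_out κ
  set I : Type u := A ⊕ μ.out with hI
  have hIμ : #I = μ := by
    rw [hI, Cardinal.mk_sum, Cardinal.lift_id, Cardinal.lift_id, hAκ, Cardinal.mk_out]
    exact Cardinal.add_eq_right hμ (h1.le.trans h3)
  have hinfA : Infinite A := Cardinal.infinite_iff.2 (by rw [hAκ]; exact hκ)
  have hinf : Infinite I := Cardinal.infinite_iff.2 (by rw [hIμ]; exact hμ)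
  have hcard : #(A → ZMod p) = 2 ^ κ := by
    rw [Cardinal.mk_arrow, hAκ]
    have : Cardinal.lift.{u} #(ZMod p) = (p : Cardinal.{u}) := by
      have : NeZero p := ⟨(Fact.out : p.Prime).ne_zero⟩
      rw [Cardinal.mk_fintype, ZMod.card, Cardinal.lift_natCast]
    rw [this, Cardinal.lift_uzero, Cardinal.nat_power_eq hκ (Fact.out : p.Prime).two_le]
  obtain ⟨S, hS⟩ := Cardinal.le_mk_iff_exists_set.1 (hcard ▸ h2 : ν ≤ #(A → ZMod p))
  let ext : (A → ZMod p) → (I → ZMod p) := fun f => Sum.elim f fun _ => 0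
  have hext : Function.Injective ext := fun f g h => funext fun a => congrFun h (Sum.inl a)
  set T : Set (I → ZMod p) := ext '' S ∪ range fun i : I => (Pi.single i 1 : I → ZMod p) with hT
  set W := Submodule.span (ZMod p) T with hWdef
  have hWs : ∀ i : I, (Pi.single i 1 : I → ZMod p) ∈ W := fun i =>
    Submodule.subset_span (Or.inr ⟨i, rfl⟩)
  have hsing : Function.Injective fun i : I => (⟨Pi.single i 1, hWs i⟩ : W) := by
    intro i j hij
    have h4 : (Pi.single i 1 : I → ZMod p) = Pi.single j 1 := congrArg Subtype.val hij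
    by_contra hne
    have h5 := congrFun h4 i
    rw [Pi.single_eq_same, Pi.single_eq_of_ne hne] at h5
    exact one_ne_zero h5
  have hTc : #T ≤ μ := by
    refine (Cardinal.mk_union_le _ _).trans ?_
    refine Cardinal.add_le_of_le hμ ((Cardinal.mk_image_le).trans (hS.trans_le h3)) ?_
    exact (Cardinal.mk_range_le).trans hIμ.le
  have hIW : #I ≤ #W := Cardinal.mk_le_of_injective hsing
  have hWc : #W = μ := le_antisymm (mk_span_le p T hμ hTc) (hIμ ▸ hIW)
  refine ⟨G p W, inferInstance, (mk_G p W hIW).trans hWc, G.commutator_central,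
    fun F hF => G.centralizer_le hWs F hF, fun J D hJ hD hU => ?_⟩
  let W0 : Set W := range fun f : S => (⟨ext f.1, Submodule.subset_span (Or.inl ⟨f.1, f.2, rfl⟩)⟩ : W)
  have hW0 : #W0 = ν := by
    rw [← hS]
    refine Cardinal.mk_range_eq _ fun f g h => Subtype.ext (hext ?_)
    exact congrArg Subtype.val h
  have h4 : (⋃ j, (W0 ∩ G.emb ⁻¹' D j : Set W)) = W0 := by
    rw [← inter_iUnion, ← preimage_iUnion, hU, preimage_univ, inter_univ]
  have h5 : #W0 ≤ #J * #A := by
    rw [← h4]
    refine (Cardinal.mk_iUnion_le_sum_mk).trans ?_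
    refine (Cardinal.sum_le_sum _ (fun _ => #A) fun j => G.thin_le (Sum.inl : A → I)
      Sum.inl_injective W0 ?_ (D j) (hD j)).trans ?_
    · rintro _ ⟨f, rfl⟩ i hi
      rcases i with a | m
      · exact absurd ⟨a, rfl⟩ hi
      · rfl
    · simp
  have h6 : #J * #A < ν := Cardinal.mul_lt_of_lt hν hJ (by rw [hAκ]; exact h1)
  exact absurd (hW0 ▸ h5) (not_le.2 h6)

/-- A countable union of discrete subspaces. -/
def SigmaDiscrete {X : Type u} (τ : TopologicalSpace X) : Prop :=
  ∃ D : ℕ → Set X, (∀ n, @DiscreteTopology (D n) (TopologicalSpace.induced Subtype.val τ)) ∧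
    (⋃ n, D n) = Set.univ

theorem not_sigma {X : Type u} {τ : TopologicalSpace X}
    (h : ∀ (J : Type u) (D : J → Set X), #J < Order.succ ℵ₀ → (∀ j, Thin τ (D j)) →
      (⋃ j, D j) ≠ Set.univ) : ¬ SigmaDiscrete τ := by
  rintro ⟨D, h1, h2⟩
  refine h (ULift ℕ) (fun n => D n.down) ?_ (fun n => thin_of_discrete τ _ (h1 n.down)) ?_
  · rw [Order.lt_succ_iff]
    simp
  · rw [← h2]
    exact Set.ext fun x => by simp

theorem sigma_of_countable {X : Type u} [Countable X] (τ : TopologicalSpace X) :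
    SigmaDiscrete τ := by
  rcases isEmpty_or_nonempty X with hX | hX
  · refine ⟨fun _ => ∅, fun n => ?_, ?_⟩
    · let _ : TopologicalSpace (∅ : Set X) := TopologicalSpace.induced Subtype.val τ
      exact Subsingleton.discreteTopology
    · exact Set.ext fun x => (hX.false x).elim
  · obtain ⟨f, hf⟩ := exists_surjective_nat X
    refine ⟨fun n => {f n}, fun n => ?_, ?_⟩
    · let _ : TopologicalSpace ({f n} : Set X) := TopologicalSpace.induced Subtype.val τ
      exact Subsingleton.discreteTopology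
    · exact Set.eq_univ_of_forall fun x => by
        obtain ⟨n, rfl⟩ := hf x
        exact mem_iUnion.2 ⟨n, rfl⟩

end Pool.Agent.KS6_21.SZ
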